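import Pool.Agent.H56.ER2.Targets

/-!
# MP_816b90_co, row QPI: outgoing paths in function form
-/

set_option autoImplicit false

open Pool.Agent.H48.ER Pool.Agent.H52.ER2 Pool.Agent.H66.ER2 Pool.Agent.H56.ER2

namespace Pool.Agent.H38.ER2

theorem pf_QPI : T_QPI := by
  intro V G v n z _ hF m a b R hO hm
  obtain ⟨g, g0, gm, gi, ga, hR⟩ := hO.ip
  have hgR : ∀ i, i ≤ m → g i ∈ R := fun i hi => by rw [hR]; exact ⟨i, hi, rfl⟩
  have hva : G.Adj v (g 0) := by rw [g0]; exact hO.inA.1
  have hvb : G.Adj v (g m) := by rw [gm]; exact hO.inB.1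
  have h3 : 3 ≤ m := by
    by_contra h
    have h1 : m = 1 := by
      obtain ⟨t, ht⟩ := hm
      omega
    have h2 : G.Adj a b := by
      rw [← g0, ← gm, ga 0 m (Nat.zero_le _) le_rfl]
      omega
    exact (hF.ab a hO.inA b hO.inB).2 h2
  have hboth : ∀ i, i ≤ m → G.Adj (g i) (g 0) → G.Adj (g i) (g m) → False := by
    intro i hi h1 h2
    rw [ga i 0 hi (Nat.zero_le _)] at h1
    rw [ga i m hi le_rfl] at h2
    omega
  refine ⟨g, ⟨⟨gi, ga⟩, by rw [g0]; exact hO.inA, by rw [gm]; exact hO.inB, h3, ?_, ?_⟩⟩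
  · intro i hi e
    exact hboth i hi (by rw [e]; exact hva) (by rw [e]; exact hvb)
  · rintro i hi him hvi (hW | ⟨w, hw, hadj⟩)
    · exact (hF.vw _ hW).2 hvi
    · rcases hF.ty (g i) hvi with h | h | h | ⟨h1, h2⟩
      · exact h w hw hadj
      · have e := hO.onlyA _ (hgR i him.le) h
        rw [← g0] at e
        have := gi i 0 him.le (Nat.zero_le _) e
        omega
      · have e := hO.onlyB _ (hgR i him.le) h
        rw [← gm] at e
        have := gi i m him.le le_rfl e
        omega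
      · refine hboth i him.le ?_ ?_
        · rw [g0]; exact h1 a hO.inA
        · rw [gm]; exact h2 b hO.inB

end Pool.Agent.H38.ER2
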