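import Pool.Agent.H66.ER2.Targets
import Pool.Agent.H66.ER2.Lib

/-!
# MP_816b90_co, row SPE: a vertex with two consecutive neighbours on a split prism
-/

set_option autoImplicit false

open Pool.Agent.H48.ER Pool.Agent.H52.ER2 Pool.Agent.H66.ER2

namespace Pool.Agent.H38.ER2

variable {V : Type} {G : SimpleGraph V}

/-- a path from `a1` to `v` inside of `L ∪ {v}` -/
structure Leg (G : SimpleGraph V) (v a1 : V) (la : ℕ) (D L : Set V) : Prop where
  ip : IP G la a1 v D
  pos : 1 ≤ la
  sub : ∀ u ∈ D, u = v ∨ u ∈ L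
  one : la = 1 → G.Adj v a1

theorem exists_leg {l : ℕ} {a1 x v : V} {L : Set V} (h : IP G l a1 x L) (hv : v ∉ L)
    (hx : G.Adj v x) : ∃ (la : ℕ) (D : Set V), Leg G v a1 la D L := by
  classical
  obtain ⟨g, hg, g0, gl, hL⟩ := IP.pf h
  have hex : ∃ i, i ≤ l ∧ G.Adj v (g i) := ⟨l, le_rfl, by rw [gl]; exact hx⟩
  obtain ⟨i, ⟨hil, hvi⟩, hmin⟩ : ∃ i, (i ≤ l ∧ G.Adj v (g i)) ∧
      ∀ k, k < i → ¬ (k ≤ l ∧ G.Adj v (g k)) :=
    ⟨Nat.find hex, Nat.find_spec hex, fun k hk => Nat.find_min hex hk⟩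
  have hsub : seg g 0 i ⊆ L := by
    rw [hL]
    rintro _ ⟨k, h1, h2, rfl⟩
    exact mem_seg h1 (h2.trans hil)
  have hs := hg.seg (Nat.zero_le i) hil
  rw [Nat.sub_zero, g0] at hs
  have hs2 := hs.snoc (u := v) (fun h => hv (hsub h)) (by
    rintro w ⟨k, h1, h2, rfl⟩
    constructor
    · intro hadj
      rcases Nat.lt_or_ge k i with hk | hk
      · exact absurd ⟨h2.trans hil, hadj⟩ (hmin k hk)
      · rw [le_antisymm h2 hk]
    · intro e
      rw [e]; exact hvi)
  refine ⟨i + 1, _, hs2, by omega, ?_, ?_⟩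
  · rintro u (rfl | hu)
    · exact Or.inl rfl
    · exact Or.inr (hsub hu)
  · intro h1
    have : i = 0 := by omega
    rw [this, g0] at hvi
    exact hvi

/-- two consecutive neighbours on the path `P` -/
structure W2 (G : SimpleGraph V) (n i k : ℕ) (v a2 b2 g g' : V) (R1 S P Q : Set V) : Prop where
  ip1 : IP G i a2 g R1
  ipS : IP G k g' b2 S
  un : R1 ∪ S = P
  dis : Disjoint R1 S
  hik : i + k + 1 = n
  adj : XE G R1 S g g'
  nb : ∀ w, w ∈ P ∨ w ∈ Q → (G.Adj v w ↔ w = g ∨ w = g')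

theorem W2.flip {n i k : ℕ} {v a2 b2 g g' : V} {R1 S P Q : Set V}
    (h : W2 G n i k v a2 b2 g g' R1 S P Q) : W2 G n k i v b2 a2 g' g S R1 P Q where
  ip1 := h.ipS.rev
  ipS := h.ip1.rev
  un := by rw [Set.union_comm]; exact h.un
  dis := h.dis.symm
  hik := by have := h.hik; omega
  adj u hu w hw := by
    rw [SimpleGraph.adj_comm, h.adj w hw u hu]
    exact and_comm
  nb w hw := by rw [h.nb w hw]; exact Or.comm

section

variable {l r n m i k : ℕ} {a1 x b1 y a2 b2 a3 b3 v g g' : V} {L R P Q R1 S : Set V}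

theorem v_nL (hv : v ∉ vS L R P Q) : v ∉ L := fun h => hv (Or.inl (Or.inl (Or.inl h)))
theorem v_nR (hv : v ∉ vS L R P Q) : v ∉ R := fun h => hv (Or.inl (Or.inl (Or.inr h)))
theorem v_nP (hv : v ∉ vS L R P Q) : v ∉ P := fun h => hv (Or.inl (Or.inr h))
theorem v_nQ (hv : v ∉ vS L R P Q) : v ∉ Q := fun h => hv (Or.inr h)

/-- the prism with the triangles `{v, g, g'}` and `{a1, a2, a3}` -/
theorem partA (hEVN : T_EVN) (hO : NOH G) (hN : NOP G)
    (hS : SPr G l r n m a1 x b1 y a2 b2 a3 b3 L R P Q) (hv : v ∉ vS L R P Q)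
    (hW : W2 G n i k v a2 b2 g g' R1 S P Q) {la : ℕ} {D : Set V} (hD : Leg G v a1 la D L)
    (hi : 1 ≤ i) : Even la ∧ Cor G v := by
  have hR1P : ∀ u ∈ R1, u ∈ P := fun u hu => by rw [← hW.un]; exact Or.inl hu
  have hSP : ∀ u ∈ S, u ∈ P := fun u hu => by rw [← hW.un]; exact Or.inr hu
  have hPQ : ∀ u ∈ P, ∀ w ∈ Q, u ≠ w := fun u hu w hw e =>
    Set.disjoint_left.1 hS.dPQ hu (e ▸ hw)
  have hRS : ∀ u ∈ R1, ∀ w ∈ S, u ≠ w := fun u hu w hw e =>
    Set.disjoint_left.1 hW.dis hu (e ▸ hw)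
  have hLP : ∀ u ∈ L, ∀ w ∈ P, u ≠ w := fun u hu w hw e =>
    Set.disjoint_left.1 hS.dLP hu (e ▸ hw)
  have hLQ : ∀ u ∈ L, ∀ w ∈ Q, u ≠ w := fun u hu w hw e =>
    Set.disjoint_left.1 hS.dLQ hu (e ▸ hw)
  have ha2 := hW.ip1.left_mem
  have hg := hW.ip1.right_mem
  have hb2 := hW.ipS.right_mem
  have hg' := hW.ipS.left_mem
  have hva1 : v ≠ a1 := fun e => v_nL hv (e ▸ hS.a1_mem)
  -- the long rung
  have hSQ : XE G S Q b2 b3 := by
    intro u hu w hw
    rw [hS.ePQ u (hSP u hu) w hw]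
    constructor
    · rintro (⟨e, -⟩ | h)
      · exact absurd e.symm (hRS a2 ha2 u hu)
      · exact h
    · exact Or.inr
  have hdSQ : Disjoint S Q := Set.disjoint_left.2 fun u hu hu' => hPQ u (hSP u hu) u hu' rfl
  have hT : IP G (k + m + 1) g' a3 (S ∪ Q) := hW.ipS.append hS.ipQ.rev hdSQ hSQ
  have hpr := mk3 hD.ip.rev hW.ip1.rev hT hD.pos hi (by omega)
    (Set.disjoint_left.2 fun u hu hu' => by
      rcases hD.sub u hu with e | e
      · exact v_nP hv (e ▸ hR1P u hu')
      · exact hLP u e u (hR1P u hu') rfl)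
    (Set.disjoint_left.2 fun u hu hu' => by
      rcases hD.sub u hu with e | e
      · rcases hu' with h | h
        · exact v_nP hv (e ▸ hSP u h)
        · exact v_nQ hv (e ▸ h)
      · rcases hu' with h | h
        · exact hLP u e u (hSP u h) rfl
        · exact hLQ u e u h rfl)
    (Set.disjoint_left.2 fun u hu hu' => by
      rcases hu' with h | h
      · exact hRS u hu u h rfl
      · exact hPQ u (hR1P u hu) u h rfl)
    (by
      intro u hu w hw
      rcases hD.sub u hu with rfl | hu'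
      · rw [hW.nb w (Or.inl (hR1P w hw))]
        constructor
        · rintro (e | e)
          · exact Or.inl ⟨rfl, e⟩
          · exact absurd e (hRS w hw g' hg')
        · rintro (⟨-, e⟩ | ⟨e, -⟩)
          · exact Or.inl e
          · exact absurd e hva1
      · rw [hS.eLP u hu' w (hR1P w hw)]
        constructor
        · exact Or.inr
        · rintro (⟨e, -⟩ | h)
          · exact absurd (e ▸ hu') (v_nL hv)
          · exact h)
    (by
      intro u hu w hw
      rcases hD.sub u hu with rfl | hu'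
      · rcases hw with hw | hw
        · rw [hW.nb w (Or.inl (hSP w hw))]
          constructor
          · rintro (e | e)
            · exact absurd e.symm (hRS g hg w hw)
            · exact Or.inl ⟨rfl, e⟩
          · rintro (⟨-, e⟩ | ⟨e, -⟩)
            · exact Or.inr e
            · exact absurd e hva1
        · rw [hW.nb w (Or.inr hw)]
          constructor
          · rintro (e | e)
            · exact absurd e.symm (hPQ g (hR1P g hg) w hw)
            · exact absurd e.symm (hPQ g' (hSP g' hg') w hw)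
          · rintro (⟨-, e⟩ | ⟨e, -⟩)
            · exact absurd e.symm (hPQ g' (hSP g' hg') w hw)
            · exact absurd e hva1
      · have huv : u ≠ v := fun e => v_nL hv (e ▸ hu')
        rcases hw with hw | hw
        · rw [hS.eLP u hu' w (hSP w hw)]
          constructor
          · rintro ⟨-, e⟩
            exact absurd e.symm (hRS a2 ha2 w hw)
          · rintro (⟨e, -⟩ | ⟨-, e⟩)
            · exact absurd e huv
            · exact absurd e (hPQ w (hSP w hw) a3 hS.a3_mem)
        · rw [hS.eLQ u hu' w hw]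
          constructor
          · exact Or.inr
          · rintro (⟨e, -⟩ | h)
            · exact absurd e huv
            · exact h)
    (by
      intro u hu w hw
      rcases hw with hw | hw
      · rw [hW.adj u hu w hw]
        constructor
        · exact Or.inl
        · rintro (h | ⟨-, e⟩)
          · exact h
          · exact absurd e (hPQ w (hSP w hw) a3 hS.a3_mem)
      · rw [hS.ePQ u (hR1P u hu) w hw]
        constructor
        · rintro (h | ⟨e, -⟩)
          · exact Or.inr h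
          · exact absurd e (hRS u hu b2 hb2)
        · rintro (⟨-, e⟩ | h)
          · exact absurd e.symm (hPQ g' (hSP g' hg') w hw)
          · exact Or.inl h)
  refine ⟨?_, _, _, _, _, hpr, rfl⟩
  exact (hEVN V G _ _ _ _ hO hpr).2 hN 0

/-- the hole through both legs and `Q` -/
theorem partH (hHOL : T_HOL) (hO : NOH G)
    (hS : SPr G l r n m a1 x b1 y a2 b2 a3 b3 L R P Q) (hv : v ∉ vS L R P Q)
    (hQ : ∀ w ∈ Q, ¬ G.Adj v w) {la lb : ℕ} {D E : Set V} (hD : Leg G v a1 la D L)
    (hE : Leg G v b1 lb E R) : Odd (la + lb) := by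
  have hvL := v_nL hv
  have hvR := v_nR hv
  have hvQ := v_nQ hv
  have hint : D ∩ E = {v} := by
    ext u
    constructor
    · rintro ⟨h1, h2⟩
      rcases hD.sub u h1 with e | e
      · exact e
      · rcases hE.sub u h2 with e' | e'
        · exact e'
        · exact absurd e' (Set.disjoint_left.1 hS.dLR e)
    · rintro rfl
      exact ⟨hD.ip.right_mem, hE.ip.right_mem⟩
  have hgl := hD.ip.glue hE.ip.rev hint (by
    rintro u ⟨hu, huv⟩ w ⟨hw, hwv⟩
    exact hS.eLR u ((hD.sub u hu).resolve_left huv) w ((hE.sub w hw).resolve_left hwv))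
  have h := hHOL V G (la + lb) m a1 b1 a3 b3 (D ∪ E) Q hO hgl hS.ipQ
    (Set.disjoint_left.2 fun u hu hu' => by
      rcases hu with hu | hu
      · rcases hD.sub u hu with e | e
        · exact hvQ (e ▸ hu')
        · exact Set.disjoint_left.1 hS.dLQ e hu'
      · rcases hE.sub u hu with e | e
        · exact hvQ (e ▸ hu')
        · exact Set.disjoint_left.1 hS.dRQ e hu')
    (by
      intro u hu w hw
      have hcase : u = v ∨ u ∈ L ∨ u ∈ R := by
        rcases hu with hu | hu
        · exact (hD.sub u hu).imp_right Or.inl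
        · exact (hE.sub u hu).imp_right Or.inr
      rcases hcase with rfl | hu' | hu'
      · constructor
        · intro h
          exact absurd h (hQ w hw)
        · rintro (⟨e, -⟩ | ⟨e, -⟩)
          · exact absurd (e ▸ hS.a1_mem) hvL
          · exact absurd (e ▸ hS.b1_mem) hvR
      · rw [hS.eLQ u hu' w hw]
        constructor
        · exact Or.inl
        · rintro (h | ⟨e, -⟩)
          · exact h
          · exact absurd (e ▸ hS.b1_mem) (Set.disjoint_left.1 hS.dLR hu')
      · rw [hS.eRQ u hu' w hw]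
        constructor
        · exact Or.inr
        · rintro (⟨e, -⟩ | h)
          · exact absurd hu' (Set.disjoint_left.1 hS.dLR (e ▸ hS.a1_mem))
          · exact h)
    (by have := hD.pos; have := hE.pos; omega)
  have hm := hS.oQ
  rcases Nat.even_or_odd (la + lb) with h1 | h1
  · exfalso
    have h2 := h1.add_odd hm
    exact (Nat.not_even_iff_odd.2 h2) h
  · exact h1

/-- a long leg and `a2` -/
theorem partC (hO : NOH G) (hS : SPr G l r n m a1 x b1 y a2 b2 a3 b3 L R P Q)
    (hv : v ∉ vS L R P Q) (hva : G.Adj v a2) {la : ℕ} {D : Set V} (hD : Leg G v a1 la D L)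
    (h2 : 2 ≤ la) : Even la := by
  refine hO la a1 v a2 D hD.ip h2 ?_ ?_ hva.symm ?_
  · intro h
    rcases hD.sub _ h with e | e
    · exact v_nP hv (e ▸ hS.a2_mem)
    · exact Set.disjoint_left.1 hS.dLP e hS.a2_mem
  · exact ((hS.eLP a1 hS.a1_mem a2 hS.a2_mem).2 ⟨rfl, rfl⟩).symm
  · intro w hw hadj
    rcases hD.sub w hw with e | e
    · exact Or.inr e
    · exact Or.inl ((hS.eLP w e a2 hS.a2_mem).1 hadj.symm).1

/-- the hole `v a1 a3 .. b3 b2` -/
theorem partD (hO : NOH G) (hS : SPr G l r n m a1 x b1 y a2 b2 a3 b3 L R P Q)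
    (hv : v ∉ vS L R P Q) (hQ : ∀ w ∈ Q, ¬ G.Adj v w) (hva : G.Adj v a1) (hvb : G.Adj v b2) :
    False := by
  have hn := hS.ipP.ne hS.oP.pos
  have h1 : IP G (m + 1) a1 b3 (insert a1 Q) := hS.ipQ.cons
    (fun h => Set.disjoint_left.1 hS.dLQ hS.a1_mem h) (fun w hw => by
      rw [hS.eLQ a1 hS.a1_mem w hw]; exact ⟨fun h => h.2, fun h => ⟨rfl, h⟩⟩)
  have hb2Q : b2 ∉ Q := fun h => Set.disjoint_left.1 hS.dPQ hS.b2_mem h
  have ha1b2 : a1 ≠ b2 := fun e => Set.disjoint_left.1 hS.dLP hS.a1_mem (e ▸ hS.b2_mem)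
  have hnad : ¬ G.Adj b2 a1 := fun h =>
    hn ((hS.eLP a1 hS.a1_mem b2 hS.b2_mem).1 h.symm).2.symm
  have hb3Q := hS.b3_mem
  have h2 : IP G (m + 1 + 1) a1 b2 (insert b2 (insert a1 Q)) := h1.snoc
    (by
      rintro (e | e)
      · exact ha1b2 e.symm
      · exact hb2Q e)
    (by
      rintro w (rfl | hw)
      · constructor
        · intro h; exact absurd h hnad
        · intro e
          exact absurd (e ▸ hb3Q) (fun h => Set.disjoint_left.1 hS.dLQ hS.a1_mem h)
      · rw [hS.ePQ b2 hS.b2_mem w hw]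
        constructor
        · rintro (⟨e, -⟩ | ⟨-, e⟩)
          · exact absurd e.symm hn
          · exact e
        · intro e; exact Or.inr ⟨rfl, e⟩)
  have h3 := hO (m + 1 + 1) a1 b2 v _ h2 (by omega) (by
    rintro (e | e | e)
    · exact v_nP hv (e ▸ hS.b2_mem)
    · exact v_nL hv (e ▸ hS.a1_mem)
    · exact v_nQ hv e) hva hvb (by
    rintro w (rfl | rfl | hw) hadj
    · exact Or.inr rfl
    · exact Or.inl rfl
    · exact absurd hadj (hQ w hw))
  have hm := hS.oQ
  obtain ⟨t, ht⟩ := hm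
  obtain ⟨s, hs⟩ := h3
  omega

/-- the case `i = 0`, `1 ≤ k` -/
theorem partB (hEVN : T_EVN) (hHOL : T_HOL) (hO : NOH G) (hN : NOP G)
    (hS : SPr G l r n m a1 x b1 y a2 b2 a3 b3 L R P Q) (hv : v ∉ vS L R P Q)
    (hW : W2 G n i k v a2 b2 g g' R1 S P Q) {la lb : ℕ} {D E : Set V} (hD : Leg G v a1 la D L)
    (hE : Leg G v b1 lb E R) (hi : i = 0) (hk : 1 ≤ k) :
    Cor G v ∧ TAl G v a1 a2 b2 n P Q := by
  have hv' : v ∉ vS R L P Q := by rw [vS_flip]; exact hv
  obtain ⟨hlb, hcor⟩ := partA hEVN hO hN hS.flip hv' hW.flip hE hk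
  subst hi
  obtain ⟨hg, hR1⟩ := hW.ip1.eq_of_zero
  have hgP : g ∈ P := hg ▸ hS.a2_mem
  have hg'P : g' ∈ P := by rw [← hW.un]; exact Or.inr hW.ipS.left_mem
  have hQ : ∀ w ∈ Q, ¬ G.Adj v w := by
    intro w hw h
    rcases (hW.nb w (Or.inr hw)).1 h with e | e
    · exact Set.disjoint_left.1 hS.dPQ hgP (e ▸ hw)
    · exact Set.disjoint_left.1 hS.dPQ hg'P (e ▸ hw)
  have hva2 : G.Adj v a2 := (hW.nb a2 (Or.inl hS.a2_mem)).2 (Or.inl hg)
  have hodd := partH hHOL hO hS hv hQ hD hE
  have hla : la = 1 := by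
    by_contra hne
    have h2 : 2 ≤ la := by have := hD.pos; omega
    have h3 := partC hO hS hv hva2 hD h2
    obtain ⟨s, hs⟩ := h3
    obtain ⟨t, ht⟩ := hlb
    obtain ⟨q, hq⟩ := hodd
    omega
  refine ⟨hcor, hD.one hla, g', hg'P, hW.ipS.ne hk, ?_, ?_, ?_, ?_⟩
  · rw [hg]
    exact (hW.adj g hW.ip1.right_mem g' hW.ipS.left_mem).2 ⟨rfl, rfl⟩
  · exact (hW.nb g' (Or.inl hg'P)).2 (Or.inr rfl)
  · have h1 := hW.hik
    obtain ⟨t, ht⟩ := hS.oP
    omega
  · intro w hw
    rw [hW.nb w hw, hg]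

/-- two consecutive neighbours on `P` -/
theorem spe_two (hEVN : T_EVN) (hHOL : T_HOL) (hO : NOH G) (hN : NOP G)
    (hS : SPr G l r n m a1 x b1 y a2 b2 a3 b3 L R P Q) (hv : v ∉ vS L R P Q) (hx : G.Adj v x)
    (hy : G.Adj v y) (hW : W2 G n i k v a2 b2 g g' R1 S P Q) :
    Cor G v ∧ (TAl G v a1 a2 b2 n P Q ∨ TAl G v b1 b2 a2 n P Q) := by
  have hv' : v ∉ vS R L P Q := by rw [vS_flip]; exact hv
  obtain ⟨la, D, hD⟩ := exists_leg hS.ipL (v_nL hv) hx
  obtain ⟨lb, E, hE⟩ := exists_leg hS.ipR (v_nR hv) hy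
  have hgP : g ∈ P := by rw [← hW.un]; exact Or.inl hW.ip1.right_mem
  have hg'P : g' ∈ P := by rw [← hW.un]; exact Or.inr hW.ipS.left_mem
  have hQ : ∀ w ∈ Q, ¬ G.Adj v w := by
    intro w hw h
    rcases (hW.nb w (Or.inr hw)).1 h with e | e
    · exact Set.disjoint_left.1 hS.dPQ hgP (e ▸ hw)
    · exact Set.disjoint_left.1 hS.dPQ hg'P (e ▸ hw)
  have hodd := partH hHOL hO hS hv hQ hD hE
  rcases Nat.eq_zero_or_pos i with hi | hi <;> rcases Nat.eq_zero_or_pos k with hk | hk
  · -- `n = 1`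
    exfalso
    subst hi; subst hk
    obtain ⟨hg, -⟩ := hW.ip1.eq_of_zero
    obtain ⟨hg', -⟩ := hW.ipS.eq_of_zero
    have hva2 : G.Adj v a2 := (hW.nb a2 (Or.inl hS.a2_mem)).2 (Or.inl hg)
    have hvb2 : G.Adj v b2 := (hW.nb b2 (Or.inl hS.b2_mem)).2 (Or.inr hg'.symm)
    by_cases h1 : la = 1
    · exact partD hO hS hv hQ (hD.one h1) hvb2
    · by_cases h2 : lb = 1
      · exact partD hO hS.flip hv' hQ (hE.one h2) hva2
      · have e1 := partC hO hS hv hva2 hD (by have := hD.pos; omega)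
        have e2 := partC hO hS.flip hv' hvb2 hE (by have := hE.pos; omega)
        obtain ⟨s, hs⟩ := e1
        obtain ⟨t, ht⟩ := e2
        obtain ⟨q, hq⟩ := hodd
        omega
  · obtain ⟨h1, h2⟩ := partB hEVN hHOL hO hN hS hv hW hD hE hi hk
    exact ⟨h1, Or.inl h2⟩
  · obtain ⟨h1, h2⟩ := partB hEVN hHOL hO hN hS.flip hv' hW.flip hE hD hk hi
    exact ⟨h1, Or.inr h2⟩
  · exfalso
    have e1 := (partA hEVN hO hN hS hv hW hD hi).1
    have e2 := (partA hEVN hO hN hS.flip hv' hW.flip hE hk).1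
    obtain ⟨s, hs⟩ := e1
    obtain ⟨t, ht⟩ := e2
    obtain ⟨q, hq⟩ := hodd
    omega

end

theorem pf_SPE (hEVN : T_EVN) (hHOL : T_HOL) : T_SPE := by
  intro V G l r n m i j a1 x b1 y a2 b2 a3 b3 v g g' L R P Q R1 R2 hO hN hS hv hx hy hH
  rcases hH.pos with ⟨e1, e2, e3, e4⟩ | ⟨k, S, h1, h2, h3, h4, h5, h6⟩ |
    ⟨k, S, h1, h2, h3, h4, h5, h6⟩
  · -- `v` sees `b2`, `b3`
    exfalso
    obtain ⟨la, D, hD⟩ := exists_leg hS.ipL (v_nL hv) hx
    have hva1 : v ≠ a1 := fun e => v_nL hv (e ▸ hS.a1_mem)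
    have hPQ : ∀ u ∈ P, ∀ w ∈ Q, u ≠ w := fun u hu w hw e =>
      Set.disjoint_left.1 hS.dPQ hu (e ▸ hw)
    have hnb := hH.nb
    rw [e3, e4] at hnb
    have hpr := mk3 hD.ip.rev hS.ipP.rev hS.ipQ.rev hD.pos hS.oP.pos hS.oQ.pos
      (Set.disjoint_left.2 fun u hu hu' => by
        rcases hD.sub u hu with e | e
        · exact v_nP hv (e ▸ hu')
        · exact Set.disjoint_left.1 hS.dLP e hu')
      (Set.disjoint_left.2 fun u hu hu' => by
        rcases hD.sub u hu with e | e
        · exact v_nQ hv (e ▸ hu')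
        · exact Set.disjoint_left.1 hS.dLQ e hu')
      hS.dPQ
      (by
        intro u hu w hw
        rcases hD.sub u hu with rfl | hu'
        · rw [hnb w (Or.inl hw)]
          constructor
          · rintro (e | e)
            · exact Or.inl ⟨rfl, e⟩
            · exact absurd e (hPQ w hw b3 hS.b3_mem)
          · rintro (⟨-, e⟩ | ⟨e, -⟩)
            · exact Or.inl e
            · exact absurd e hva1
        · rw [hS.eLP u hu' w hw]
          constructor
          · exact Or.inr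
          · rintro (⟨e, -⟩ | h)
            · exact absurd (e ▸ hu') (v_nL hv)
            · exact h)
      (by
        intro u hu w hw
        rcases hD.sub u hu with rfl | hu'
        · rw [hnb w (Or.inr hw)]
          constructor
          · rintro (e | e)
            · exact absurd e.symm (hPQ b2 hS.b2_mem w hw)
            · exact Or.inl ⟨rfl, e⟩
          · rintro (⟨-, e⟩ | ⟨e, -⟩)
            · exact Or.inr e
            · exact absurd e hva1
        · rw [hS.eLQ u hu' w hw]
          constructor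
          · exact Or.inr
          · rintro (⟨e, -⟩ | h)
            · exact absurd (e ▸ hu') (v_nL hv)
            · exact h)
      (by
        intro u hu w hw
        rw [hS.ePQ u hu w hw]
        exact Or.comm)
    have he := (hEVN V G _ _ _ _ hO hpr).2 hN 1
    exact (Nat.not_even_iff_odd.2 hS.oP) he
  · -- two neighbours on `P`
    have hSR2 : ∀ w ∈ S, w ∈ R2 := fun w hw => by rw [h4]; exact Or.inr hw
    have hW : W2 G n i k v a2 b2 g g' R1 S P Q :=
      { ip1 := hH.ip1
        ipS := h1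
        un := h2
        dis := h3
        hik := h5
        adj := by
          intro u hu w hw
          rw [hH.adj u hu w (hSR2 w hw)]
          constructor
          · rintro (⟨-, e⟩ | h)
            · exfalso
              have hwP : w ∈ P := by rw [← h2]; exact Or.inr hw
              exact Set.disjoint_left.1 hS.dPQ hwP (e ▸ hS.a3_mem)
            · exact h
          · exact Or.inr
        nb := fun w hw => hH.nb w hw }
    obtain ⟨c1, c2⟩ := spe_two hEVN hHOL hO hN hS hv hx hy hW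
    exact ⟨c1, c2.elim Or.inl fun h => Or.inr (Or.inr (Or.inl h))⟩
  · -- two neighbours on `Q`
    have hSR1 : ∀ w ∈ S, w ∈ R1 := fun w hw => by rw [h4]; exact Or.inr hw
    have hv' : v ∉ vS L R Q P := by rw [vS_swap]; exact hv
    have hW : W2 G m j k v a3 b3 g' g R2 S Q P :=
      { ip1 := hH.ip2
        ipS := h1
        un := h2
        dis := h3
        hik := h5
        adj := by
          intro u hu w hw
          rw [SimpleGraph.adj_comm, hH.adj w (hSR1 w hw) u hu]
          constructor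
          · rintro (⟨e, -⟩ | h)
            · exfalso
              have hwQ : w ∈ Q := by rw [← h2]; exact Or.inr hw
              exact Set.disjoint_left.1 hS.dPQ (e ▸ hS.a2_mem) hwQ
            · exact ⟨h.2, h.1⟩
          · rintro ⟨e, e'⟩
            exact Or.inr ⟨e', e⟩
        nb := fun w hw => by rw [hH.nb w hw.symm]; exact Or.comm }
    obtain ⟨c1, c2⟩ := spe_two hEVN hHOL hO hN hS.swap hv' hx hy hW
    exact ⟨c1, c2.elim (fun h => Or.inr (Or.inl h)) fun h => Or.inr (Or.inr (Or.inr h))⟩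

end Pool.Agent.H38.ER2
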